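import Pool.Agent.H24.PG.Cls2

/-!
# Groups of class at most two: when is the class-size product bound attained?

`Autc G` is the group of class-preserving automorphisms, `Equality x` says that its order is the
product of the sizes of the conjugacy classes of the entries of the family `x`, and `wd x a` is
the product `x 0 ^ a 0 * x 1 ^ a 1 * ⋯`.
-/

set_option autoImplicit false

namespace Pool.Agent.Results.MP_5dd2c0_al.ClassTwo

open Pool.Agent.H24.PG
open scoped commutatorElement

/-- Let `G` be a finite group of nilpotency class at most two, generated by `x 0, …, x (d-1)`.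
Equality holds in the class-size product bound iff for all integers `a 0, …, a (d-1)` and all `j`
every commutator `⁅g, x j ^ a j⁆` is of the form `⁅h, x 0 ^ a 0 ⋯ x (d-1) ^ a (d-1)⁆`. -/
theorem result {G : Type*} [Group G] [Finite G] (hG : commutator G ≤ Subgroup.center G)
    {d : ℕ} (x : Fin d → G) (hx : Subgroup.closure (Set.range x) = ⊤) :
    Equality x ↔ ∀ (a : Fin d → ℤ) (j : Fin d) (g : G), ∃ h : G,
      ⁅g, x j ^ a j⁆ = ⁅h, wd x a⁆ :=
  (equality_iff hx).trans (extends_iff_crit (cls2_of_le hG) hx)

end Pool.Agent.Results.MP_5dd2c0_al.ClassTwo
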