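import Pool.Agent.H24.PG.Isoc

/-!
# Closure properties of the class of groups attaining the class-size product bound

The class of finite groups which have a minimal generating set with equality in the class-size
product bound is closed under isoclinism, quotients and central products.
-/

set_option autoImplicit false

namespace Pool.Agent.Results.MP_5dd2c0_al.Closure

open Pool.Agent.H24.PG

/-- For finite groups, having a minimal generating set with equality in the class-size product
bound is invariant under isoclinism and is inherited by quotients and by central products. -/
theorem result {G H : Type*} [Group G] [Group H] [Finite G] [Finite H] :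
    (Isoclinic G H → (Attains G ↔ Attains H)) ∧
    (∀ (N : Subgroup G) [N.Normal], Attains G → Attains (G ⧸ N)) ∧
    (∀ A B : Subgroup G, (∀ a ∈ A, ∀ b ∈ B, a * b = b * a) → A ⊔ B = ⊤ →
      Attains A → Attains B → Attains G) :=
  ⟨fun h => ⟨attains_of_isoclinic h, attains_of_isoclinic h.symm⟩,
    fun N _ h => h.of_surjective (QuotientGroup.mk' N) (QuotientGroup.mk'_surjective N),
    fun A B hc hs h1 h2 => attains_central A B hc hs h1 h2⟩

end Pool.Agent.Results.MP_5dd2c0_al.Closure
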