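import Pool.Agent.H24.PG.CycAb

/-!
# Finite p-groups with an abelian normal subgroup and cyclic quotient

Complete answer to Q1 for all finite p-groups which have an abelian normal subgroup with cyclic
quotient (in particular for metacyclic p-groups and for p-groups with an abelian maximal
subgroup).
-/

set_option autoImplicit false

namespace Pool.Agent.Results.MP_5dd2c0_al.CyclicByAbelian

open Pool.Agent.H24.PG

/-- Let `G` be a finite p-group with an abelian normal subgroup `A` such that `G / A` is cyclic.
Then `G` has a minimal generating set for which equality holds in the class-size product bound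
iff `G / Z(G)` can be generated by two elements. -/
theorem result {p : ℕ} [Fact p.Prime] {G : Type*} [Group G] [Finite G] (hG : IsPGroup p G)
    (A : Subgroup G) [A.Normal] (hA : ∀ a ∈ A, ∀ b ∈ A, a * b = b * a)
    (hcyc : IsCyclic (G ⧸ A)) :
    Attains G ↔ ∃ u v : G, Subgroup.closure {u, v} ⊔ Subgroup.center G = ⊤ :=
  ⟨two_gen_of_attains hG A hA hcyc, attains_of_two_gen hG A hA hcyc⟩

end Pool.Agent.Results.MP_5dd2c0_al.CyclicByAbelian
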