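import Pool.Agent.H24.PG.CycTwo

/-!
# Finite p-groups with cyclic commutator subgroup

For odd `p` every finite p-group with cyclic commutator subgroup has a minimal generating set
for which equality holds in the class-size product bound; for `p = 2` this holds if the group
acts trivially on the commutator subgroup modulo fourth powers, and if the group is generated by
two elements modulo its centre.
-/

set_option autoImplicit false

namespace Pool.Agent.Results.MP_5dd2c0_al.CyclicDerived

open Pool.Agent.H24.PG
open scoped commutatorElement

/-- Let `G` be a finite p-group with cyclic commutator subgroup. Assume that `p` is odd, or that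
every commutator `⁅g, w⁆` with `w` in the commutator subgroup is the fourth power of an element
of the commutator subgroup (e.g. `G` of class at most two), or that `G / Z(G)` is generated by two
elements. Then `G` has a minimal generating set for which equality holds. -/
theorem result {p : ℕ} [Fact p.Prime] {G : Type*} [Group G] [Finite G] (hG : IsPGroup p G)
    (hcyc : IsCyclic (commutator G))
    (h : p ≠ 2 ∨ (∀ g : G, ∀ w ∈ commutator G, ∃ v ∈ commutator G, ⁅g, w⁆ = v ^ 4) ∨
      ∃ u v : G, Subgroup.closure {u, v} ⊔ Subgroup.center G = ⊤) :
    Attains G := by
  by_cases h2 : p = 2
  · subst h2
    rcases h with h | h | ⟨u, v, h⟩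
    · exact absurd rfl h
    · exact attains_of_cyclic hG hcyc (Or.inr h)
    · exact attains_of_cyclic_two hG hcyc h
  · exact attains_of_cyclic hG hcyc (Or.inl h2)

end Pool.Agent.Results.MP_5dd2c0_al.CyclicDerived
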